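import Pool.Agent.PWR.All

/-!
# MP_0ad3d3_nt: how often does `[n^2, (n+1)^2)` contain many powerful numbers?
-/

namespace Pool.Agent.Results.MP_0ad3d3_nt.LargeDeviations

open Filter

/-- `h n` is the number of powerful integers `m` (positive integers `m` such that `p ^ 2 ∣ m`
for every prime `p ∣ m`) in the half-open interval `[n ^ 2, (n + 1) ^ 2)`. -/
noncomputable def h (n : ℕ) : ℕ :=
  Nat.card {m : ℕ | n ^ 2 ≤ m ∧ m < (n + 1) ^ 2 ∧ 0 < m ∧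
    ∀ p : ℕ, p.Prime → p ∣ m → p ^ 2 ∣ m}

/-- (1) There is `C` such that for every `k ≥ 1` and every real `x ≥ exp (exp (C k))` the number of
positive integers `n ≤ x` with `h n ≥ k + 1` is between `x (C k)^(-3k/2)` and
`x (k / C)^(-3k/2)`.
(2) For every `ε > 0` there is `c > 0` such that for all large `x` at most
`x exp (-c (log log x)^2)` positive integers `n ≤ x` satisfy `h n ≥ (log n)^ε`. -/
theorem result :
    (∃ C : ℝ, 1 ≤ C ∧ ∀ k : ℕ, 1 ≤ k → ∀ x : ℝ, Real.exp (Real.exp (C * k)) ≤ x →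
      x * (C * k) ^ (-(3 / 2 * k) : ℝ) ≤
        Nat.card {n : ℕ | 1 ≤ n ∧ (n : ℝ) ≤ x ∧ k + 1 ≤ h n} ∧
      (Nat.card {n : ℕ | 1 ≤ n ∧ (n : ℝ) ≤ x ∧ k + 1 ≤ h n} : ℝ) ≤
        x * (k / C) ^ (-(3 / 2 * k) : ℝ)) ∧
    (∀ ε : ℝ, 0 < ε → ∃ c : ℝ, 0 < c ∧ ∀ᶠ x : ℝ in atTop,
      (Nat.card {n : ℕ | 1 ≤ n ∧ (n : ℝ) ≤ x ∧ (Real.log n) ^ ε ≤ h n} : ℝ) ≤
        x * Real.exp (-(c * (Real.log (Real.log x)) ^ 2))) :=
  Pool.Agent.PWR.main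

end Pool.Agent.Results.MP_0ad3d3_nt.LargeDeviations
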