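import Mathlib

namespace Pool.Agent.Results.MP_0ad3d3_nt.LowerHalf

open Finset

/-- `h n` is the number of powerful integers `m` (positive integers `m` such that `p ^ 2 ∣ m`
for every prime `p ∣ m`) in the half-open interval `[n ^ 2, (n + 1) ^ 2)`. -/
noncomputable def h (n : ℕ) : ℕ :=
  Nat.card {m : ℕ | n ^ 2 ≤ m ∧ m < (n + 1) ^ 2 ∧ 0 < m ∧
    ∀ p : ℕ, p.Prime → p ∣ m → p ^ 2 ∣ m}

/-- the finite set counted by `h` -/
noncomputable def P (n : ℕ) : Finset ℕ := by
  classical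
  exact (Finset.Ico (n ^ 2) ((n + 1) ^ 2)).filter
    (fun m => 0 < m ∧ ∀ p : ℕ, p.Prime → p ∣ m → p ^ 2 ∣ m)

lemma h_eq (n : ℕ) : h n = (P n).card := by
  classical
  unfold h P
  rw [Nat.card_coe_set_eq, ← Set.ncard_coe_finset]
  congr 1
  ext m
  simp [and_assoc]

lemma sqfree_unique {b b' x y : ℕ} (hb : Squarefree b) (hb' : Squarefree b') (hy : 0 < y)
    (e : b * x ^ 2 = b' * y ^ 2) : b = b' := by
  have hb0 : b ≠ 0 := hb.ne_zero
  have e2 : (b * x) ^ 2 = (b * b') * y ^ 2 := by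
    calc (b * x) ^ 2 = b * (b * x ^ 2) := by ring
      _ = b * (b' * y ^ 2) := by rw [e]
      _ = (b * b') * y ^ 2 := by ring
  have hyd : y ∣ b * x := by
    rw [← Nat.pow_dvd_pow_iff (n := 2) (by norm_num), e2]
    exact Dvd.intro_left _ rfl
  obtain ⟨c, hc⟩ := hyd
  rw [hc, mul_pow, mul_comm (b * b')] at e2
  have hc2 : c ^ 2 = b * b' := Nat.eq_of_mul_eq_mul_left (by positivity) e2
  have hbc : b ∣ c := by
    rw [← hb.dvd_pow_iff_dvd (n := 2) (by norm_num), hc2]
    exact Dvd.intro _ rfl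
  obtain ⟨d, rfl⟩ := hbc
  have hd : b * d ^ 2 = b' := by
    have : b * (b * d ^ 2) = b * b' := by rw [← hc2]; ring
    exact Nat.eq_of_mul_eq_mul_left (Nat.pos_of_ne_zero hb0) this
  have hdu : IsUnit d := by
    apply hb'
    exact ⟨b, by rw [← hd]; ring⟩
  rw [Nat.isUnit_iff] at hdu
  rw [← hd, hdu]; ring

/-- Squarefree numbers in `[1, B]`. -/
noncomputable def S (B : ℕ) : Finset ℕ := by
  classical
  exact (Finset.Ioc 0 B).filter Squarefree

lemma mem_S {B b : ℕ} : b ∈ S B ↔ (0 < b ∧ b ≤ B) ∧ Squarefree b := by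
  classical
  unfold S
  simp

/-- sum of `1/d^2`, telescoped -/
lemma sum_inv_sq (D : ℕ) (hD : 2 ≤ D) :
    ∑ d ∈ Finset.Icc 2 D, (1 : ℝ) / (d : ℝ) ^ 2 ≤ 3 / 4 - 1 / D := by
  induction D, hD using Nat.le_induction with
  | base => norm_num
  | succ n hn ih =>
    rw [Finset.sum_Icc_succ_top (by omega)]
    have hn0 : (0 : ℝ) < n := by exact_mod_cast (by omega : 0 < n)
    have : (1 : ℝ) / ((n + 1 : ℕ) : ℝ) ^ 2 ≤ 1 / n - 1 / ((n + 1 : ℕ) : ℝ) := by
      push_cast
      rw [div_sub_div _ _ (by positivity) (by positivity), div_le_div_iff₀ (by positivity) (by positivity)]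
      ring_nf
      nlinarith
    linarith

lemma card_S (B : ℕ) (hB : 2 ≤ B) : (B : ℝ) / 4 ≤ (S B).card := by
  classical
  have hsplit : ((Finset.Ioc 0 B).filter Squarefree).card +
      ((Finset.Ioc 0 B).filter (fun n => ¬ Squarefree n)).card = B := by
    rw [Finset.card_filter_add_card_filter_not]
    simp
  have hcover : (Finset.Ioc 0 B).filter (fun n => ¬ Squarefree n) ⊆
      (Finset.Icc 2 B).biUnion (fun d => (Finset.Ioc 0 B).filter (fun n => d ^ 2 ∣ n)) := by
    intro n hn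
    rw [Finset.mem_filter, Finset.mem_Ioc] at hn
    obtain ⟨⟨hn0, hnB⟩, hns⟩ := hn
    rw [Nat.squarefree_iff_prime_squarefree] at hns
    push Not at hns
    obtain ⟨p, hp, hpn⟩ := hns
    rw [Finset.mem_biUnion]
    refine ⟨p, ?_, ?_⟩
    · rw [Finset.mem_Icc]
      refine ⟨hp.two_le, ?_⟩
      have : p ∣ n := (Dvd.intro p rfl : p ∣ p * p).trans hpn
      exact (Nat.le_of_dvd hn0 this).trans hnB
    · rw [Finset.mem_filter, Finset.mem_Ioc]
      exact ⟨⟨hn0, hnB⟩, by rwa [sq]⟩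
  have hcard : (((Finset.Ioc 0 B).filter (fun n => ¬ Squarefree n)).card : ℝ) ≤
      B * (3 / 4) := by
    calc (((Finset.Ioc 0 B).filter (fun n => ¬ Squarefree n)).card : ℝ)
        ≤ (((Finset.Icc 2 B).biUnion
            (fun d => (Finset.Ioc 0 B).filter (fun n => d ^ 2 ∣ n))).card : ℝ) := by
          exact_mod_cast Finset.card_le_card hcover
      _ ≤ ∑ d ∈ Finset.Icc 2 B, (((Finset.Ioc 0 B).filter (fun n => d ^ 2 ∣ n)).card : ℝ) := by
          exact_mod_cast Finset.card_biUnion_le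
      _ ≤ ∑ d ∈ Finset.Icc 2 B, (B : ℝ) * (1 / (d : ℝ) ^ 2) := by
          apply Finset.sum_le_sum
          intro d _
          rw [Nat.Ioc_filter_dvd_card_eq_div]
          calc ((B / d ^ 2 : ℕ) : ℝ) ≤ (B : ℝ) / ((d ^ 2 : ℕ) : ℝ) := Nat.cast_div_le
            _ = (B : ℝ) * (1 / (d : ℝ) ^ 2) := by push_cast; ring
      _ = B * ∑ d ∈ Finset.Icc 2 B, 1 / (d : ℝ) ^ 2 := by rw [Finset.mul_sum]
      _ ≤ B * (3 / 4) := by
          have h1 := sum_inv_sq B hB
          have : (0 : ℝ) ≤ 1 / (B : ℝ) := by positivity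
          gcongr
          linarith
  have hs : (((Finset.Ioc 0 B).filter Squarefree).card : ℝ) +
      (((Finset.Ioc 0 B).filter (fun n => ¬ Squarefree n)).card : ℝ) = B := by
    exact_mod_cast hsplit
  have : ((S B).card : ℝ) = (((Finset.Ioc 0 B).filter Squarefree).card : ℝ) := by
    unfold S
    rfl
  rw [this]
  linarith

/-- the number of cells used for `b` -/
noncomputable def M (b : ℕ) : ℕ := ⌈(b : ℝ) * √b⌉₊

lemma pigeon (T : Finset ℕ) (hT : ∀ b ∈ T, 0 < b) :
    ∃ q : ℕ, 0 < q ∧ q ≤ ∏ b ∈ T, M b ∧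
      ∀ b ∈ T, ∃ a : ℤ, |(q : ℝ) - a * ((b : ℝ) * √b)| < 1 := by
  classical
  have hβ : ∀ b ∈ T, (1 : ℝ) ≤ (b : ℝ) * √b := by
    intro b hb
    have h1 : (1 : ℝ) ≤ b := by exact_mod_cast hT b hb
    have h2 : (1 : ℝ) ≤ √b := by
      rw [Real.one_le_sqrt]; exact h1
    nlinarith
  have hM : ∀ b ∈ T, (b : ℝ) * √b ≤ M b := fun b _ => Nat.le_ceil _
  let φ : ℕ → ((b : ℕ) → b ∈ T → ℕ) :=
    fun q b _ => ⌊Int.fract ((q : ℝ) / ((b : ℝ) * √b)) * (M b : ℝ)⌋₊
  have hmaps : ∀ q ∈ Finset.range ((∏ b ∈ T, M b) + 1),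
      φ q ∈ Finset.pi T (fun b => Finset.range (M b)) := by
    intro q _
    rw [Finset.mem_pi]
    intro b hb
    rw [Finset.mem_range]
    have hMpos : (0 : ℝ) < M b := lt_of_lt_of_le (by linarith [hβ b hb]) (hM b hb)
    have h1 : Int.fract ((q : ℝ) / ((b : ℝ) * √b)) * (M b : ℝ) < M b := by
      have := Int.fract_lt_one ((q : ℝ) / ((b : ℝ) * √b))
      nlinarith
    have h0 : 0 ≤ Int.fract ((q : ℝ) / ((b : ℝ) * √b)) * (M b : ℝ) := by
      have := Int.fract_nonneg ((q : ℝ) / ((b : ℝ) * √b))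
      positivity
    exact (Nat.floor_lt h0).mpr h1
  have hcard : (Finset.pi T (fun b => Finset.range (M b))).card <
      (Finset.range ((∏ b ∈ T, M b) + 1)).card := by
    rw [Finset.card_pi, Finset.card_range]
    simp
  obtain ⟨q1, hq1, q2, hq2, hne, heq⟩ :=
    Finset.exists_ne_map_eq_of_card_lt_of_maps_to hcard hmaps
  -- order the two
  obtain ⟨r1, r2, hr, hr2, heq'⟩ : ∃ r1 r2 : ℕ, r1 < r2 ∧ r2 ≤ ∏ b ∈ T, M b ∧ φ r1 = φ r2 := by
    rcases Nat.lt_or_gt_of_ne hne with hlt | hlt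
    · exact ⟨q1, q2, hlt, by rw [Finset.mem_range] at hq2; omega, heq⟩
    · exact ⟨q2, q1, hlt, by rw [Finset.mem_range] at hq1; omega, heq.symm⟩
  refine ⟨r2 - r1, by omega, by omega, ?_⟩
  intro b hb
  have hβb := hβ b hb
  have hMb := hM b hb
  have hβpos : (0 : ℝ) < (b : ℝ) * √b := by linarith
  have hMpos : (0 : ℝ) < M b := lt_of_lt_of_le hβpos hMb
  have hcell : ⌊Int.fract ((r1 : ℝ) / ((b : ℝ) * √b)) * (M b : ℝ)⌋₊ =
      ⌊Int.fract ((r2 : ℝ) / ((b : ℝ) * √b)) * (M b : ℝ)⌋₊ := by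
    have := congrFun (congrFun heq' b) hb
    exact this
  set x1 := (r1 : ℝ) / ((b : ℝ) * √b) with hx1
  set x2 := (r2 : ℝ) / ((b : ℝ) * √b) with hx2
  have hf1 := Nat.floor_le (show (0 : ℝ) ≤ Int.fract x1 * (M b : ℝ) by
    have := Int.fract_nonneg x1; positivity)
  have hf1' := Nat.lt_floor_add_one (Int.fract x1 * (M b : ℝ))
  have hf2 := Nat.floor_le (show (0 : ℝ) ≤ Int.fract x2 * (M b : ℝ) by
    have := Int.fract_nonneg x2; positivity)
  have hf2' := Nat.lt_floor_add_one (Int.fract x2 * (M b : ℝ))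
  rw [hcell] at hf1 hf1'
  have hdiff : |(Int.fract x2 - Int.fract x1) * (M b : ℝ)| < 1 := by
    rw [abs_lt]; constructor <;> nlinarith
  rw [abs_mul, abs_of_pos hMpos] at hdiff
  have hdiff2 : |Int.fract x2 - Int.fract x1| * ((b : ℝ) * √b) < 1 := by
    have := abs_nonneg (Int.fract x2 - Int.fract x1)
    nlinarith
  refine ⟨⌊x2⌋ - ⌊x1⌋, ?_⟩
  have e : ((r2 - r1 : ℕ) : ℝ) - ((⌊x2⌋ - ⌊x1⌋ : ℤ) : ℝ) * ((b : ℝ) * √b) =
      (Int.fract x2 - Int.fract x1) * ((b : ℝ) * √b) := by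
    rw [Nat.cast_sub hr.le]
    have e1 : (r1 : ℝ) = x1 * ((b : ℝ) * √b) := by rw [hx1, div_mul_cancel₀ _ hβpos.ne']
    have e2 : (r2 : ℝ) = x2 * ((b : ℝ) * √b) := by rw [hx2, div_mul_cancel₀ _ hβpos.ne']
    rw [e1, e2, Int.fract, Int.fract]
    push_cast
    ring
  rw [e, abs_mul, abs_of_pos hβpos]
  exact hdiff2

lemma card_le_of_pigeon (T : Finset ℕ) (hT : ∀ b ∈ T, Squarefree b) {q : ℕ} (hq : 0 < q)
    (hqa : ∀ b ∈ T, ∃ a : ℤ, |(q : ℝ) - a * ((b : ℝ) * √b)| < 1) :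
    T.card ≤ h (q - 1) + h q := by
  classical
  have hpos : ∀ b ∈ T, 0 < b := fun b hb => Nat.pos_of_ne_zero (hT b hb).ne_zero
  have hex : ∀ b ∈ T, ∃ a : ℕ, 0 < a ∧ a ^ 2 * b ^ 3 ∈ P (q - 1) ∪ P q := by
    intro b hb
    obtain ⟨a, ha⟩ := hqa b hb
    have hb1 : (1 : ℝ) ≤ b := by exact_mod_cast hpos b hb
    have hs1 : (1 : ℝ) ≤ √b := by
      rw [Real.one_le_sqrt]; exact hb1
    have hβ : (1 : ℝ) ≤ (b : ℝ) * √b := by nlinarith
    have hq1 : (1 : ℝ) ≤ q := by exact_mod_cast hq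
    rw [abs_lt] at ha
    have hapos : 0 < a := by
      by_contra hle
      push Not at hle
      have : (a : ℝ) ≤ 0 := by exact_mod_cast hle
      nlinarith
    obtain ⟨c, rfl⟩ := Int.eq_ofNat_of_zero_le hapos.le
    have hc : 0 < c := by exact_mod_cast hapos
    push_cast at ha
    refine ⟨c, hc, ?_⟩
    have hsq : ((c : ℝ) * ((b : ℝ) * √b)) ^ 2 = ((c ^ 2 * b ^ 3 : ℕ) : ℝ) := by
      push_cast
      have := Real.sq_sqrt (show (0 : ℝ) ≤ b by linarith)
      calc ((c : ℝ) * ((b : ℝ) * √b)) ^ 2 = (c : ℝ) ^ 2 * (b : ℝ) ^ 2 * (√b) ^ 2 := by ring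
        _ = _ := by rw [this]; ring
    have hlow : (q - 1) ^ 2 ≤ c ^ 2 * b ^ 3 := by
      have : ((q - 1 : ℕ) : ℝ) ^ 2 ≤ ((c ^ 2 * b ^ 3 : ℕ) : ℝ) := by
        rw [← hsq, Nat.cast_sub (by omega)]
        push_cast
        apply pow_le_pow_left₀ (by linarith)
        linarith [ha.2]
      exact_mod_cast this
    have hup : c ^ 2 * b ^ 3 < (q + 1) ^ 2 := by
      have : ((c ^ 2 * b ^ 3 : ℕ) : ℝ) < ((q + 1 : ℕ) : ℝ) ^ 2 := by
        rw [← hsq]
        push_cast
        apply pow_lt_pow_left₀ (by linarith [ha.1]) (by positivity) (by norm_num)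
      exact_mod_cast this
    have hbp := hpos b hb
    have hp1 : 0 < c ^ 2 * b ^ 3 := by positivity
    have hp2 : ∀ p : ℕ, p.Prime → p ∣ c ^ 2 * b ^ 3 → p ^ 2 ∣ c ^ 2 * b ^ 3 := by
      intro p hp hd
      rcases (Nat.Prime.dvd_mul hp).mp hd with h1 | h1
      · have := hp.dvd_of_dvd_pow h1
        exact Dvd.dvd.mul_right (pow_dvd_pow_of_dvd this 2) _
      · have := hp.dvd_of_dvd_pow h1
        exact Dvd.dvd.mul_left ((pow_dvd_pow_of_dvd this 2).trans (pow_dvd_pow b (by norm_num))) _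
    rw [Finset.mem_union]
    by_cases hlt : c ^ 2 * b ^ 3 < q ^ 2
    · left
      unfold P
      rw [Finset.mem_filter, Finset.mem_Ico]
      refine ⟨⟨hlow, ?_⟩, hp1, hp2⟩
      rwa [Nat.sub_add_cancel (by omega)]
    · right
      unfold P
      rw [Finset.mem_filter, Finset.mem_Ico]
      exact ⟨⟨by omega, hup⟩, hp1, hp2⟩
  choose! a ha hmem using hex
  have hcard : T.card ≤ (P (q - 1) ∪ P q).card := by
    apply Finset.card_le_card_of_injOn (fun b => a b ^ 2 * b ^ 3)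
    · intro b hb
      exact hmem b hb
    · intro b hb b' hb' he
      have e : b * (a b * b) ^ 2 = b' * (a b' * b') ^ 2 := by
        calc b * (a b * b) ^ 2 = a b ^ 2 * b ^ 3 := by ring
          _ = a b' ^ 2 * b' ^ 3 := he
          _ = _ := by ring
      have h1 := ha b hb
      have h2 := ha b' hb'
      have h3 := hpos b hb
      have h4 := hpos b' hb'
      exact sqfree_unique (hT b hb) (hT b' hb') (by positivity) e
  rw [h_eq, h_eq]
  exact hcard.trans (Finset.card_union_le _ _)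

lemma h_le (n : ℕ) : h n ≤ 2 * n + 1 := by
  classical
  rw [h_eq]
  unfold P
  refine (Finset.card_filter_le _ _).trans ?_
  rw [Nat.card_Ico]
  have : (n + 1) ^ 2 = n ^ 2 + (2 * n + 1) := by ring
  omega

lemma one_le_h (n : ℕ) (hn : 0 < n) : 1 ≤ h n := by
  classical
  rw [h_eq, Nat.one_le_iff_ne_zero, ← Nat.pos_iff_ne_zero, Finset.card_pos]
  refine ⟨n ^ 2, ?_⟩
  unfold P
  rw [Finset.mem_filter, Finset.mem_Ico]
  refine ⟨⟨le_rfl, by nlinarith⟩, by positivity, ?_⟩
  intro p hp hd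
  exact pow_dvd_pow_of_dvd (hp.dvd_of_dvd_pow hd) 2

/-- The finitary form. -/
lemma main_B (B : ℕ) (hB : 2 ≤ B) : ∃ n : ℕ, (B : ℝ) ≤ 16 * n + 8 ∧
    Real.log n ≤ (S B).card * (3 / 2 * Real.log B + Real.log 2) ∧ ((S B).card : ℝ) / 2 ≤ h n := by
  obtain ⟨q, hq, hqN, hqa⟩ := pigeon (S B) (fun b hb => (mem_S.mp hb).1.1)
  have hc := card_le_of_pigeon (S B) (fun b hb => (mem_S.mp hb).2) hq hqa
  have hBpos : (0 : ℝ) < B := by positivity
  obtain ⟨n, hnq, hn⟩ : ∃ n ≤ q, (S B).card ≤ 2 * h n := by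
    by_cases hh : h (q - 1) ≤ h q
    · exact ⟨q, le_rfl, by omega⟩
    · exact ⟨q - 1, by omega, by omega⟩
  have hk := card_S B hB
  have hnle := h_le n
  have hnR : ((S B).card : ℝ) ≤ 2 * (h n : ℝ) := by exact_mod_cast hn
  have hhR : (h n : ℝ) ≤ 2 * n + 1 := by exact_mod_cast hnle
  refine ⟨n, by linarith, ?_, by linarith⟩
  have hlogq : Real.log q ≤ (S B).card * (3 / 2 * Real.log B + Real.log 2) := by
    have hMpos : ∀ b ∈ S B, (0 : ℝ) < M b := by
      intro b hb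
      have hb0 := (mem_S.mp hb).1.1
      have : (0 : ℝ) < (b : ℝ) * √b := by
        have : (0 : ℝ) < b := by exact_mod_cast hb0
        positivity
      exact lt_of_lt_of_le this (Nat.le_ceil _)
    have h1 : Real.log q ≤ Real.log ((∏ b ∈ S B, M b : ℕ) : ℝ) := by
      apply Real.log_le_log (by exact_mod_cast hq)
      exact_mod_cast hqN
    have h2 : Real.log ((∏ b ∈ S B, M b : ℕ) : ℝ) = ∑ b ∈ S B, Real.log (M b) := by
      push_cast
      rw [Real.log_prod]
      intro b hb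
      exact (hMpos b hb).ne'
    have h3 : ∀ b ∈ S B, Real.log (M b) ≤ 3 / 2 * Real.log B + Real.log 2 := by
      intro b hb
      have hb0 := (mem_S.mp hb).1.1
      have hbB := (mem_S.mp hb).1.2
      have hb1 : (1 : ℝ) ≤ b := by exact_mod_cast hb0
      have hbBR : (b : ℝ) ≤ B := by exact_mod_cast hbB
      have hs1 : (1 : ℝ) ≤ √b := by
        rw [Real.one_le_sqrt]; exact hb1
      have hM1 : (M b : ℝ) ≤ (b : ℝ) * √b + 1 := (Nat.ceil_lt_add_one (by positivity)).le
      have hsB : √(b : ℝ) ≤ √(B : ℝ) := Real.sqrt_le_sqrt hbBR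
      have hM2 : (M b : ℝ) ≤ 2 * ((B : ℝ) * √B) := by
        have : (b : ℝ) * √b ≤ (B : ℝ) * √B := by
          apply mul_le_mul hbBR hsB (by positivity) (by positivity)
        nlinarith
      have hsBpos : (0 : ℝ) < √(B : ℝ) := Real.sqrt_pos.mpr hBpos
      calc Real.log (M b) ≤ Real.log (2 * ((B : ℝ) * √B)) := Real.log_le_log (hMpos b hb) hM2
        _ = Real.log 2 + (Real.log B + Real.log √B) := by
            rw [Real.log_mul (by norm_num) (by positivity), Real.log_mul (by positivity) (by positivity)]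
        _ = 3 / 2 * Real.log B + Real.log 2 := by
            rw [Real.log_sqrt hBpos.le]; ring
    calc Real.log q ≤ ∑ b ∈ S B, Real.log (M b) := by rw [← h2]; exact h1
      _ ≤ ∑ b ∈ S B, (3 / 2 * Real.log B + Real.log 2) := Finset.sum_le_sum h3
      _ = _ := by rw [Finset.sum_const, nsmul_eq_mul]
  have hnqlog : Real.log n ≤ Real.log q := by
    rcases Nat.eq_zero_or_pos n with h0 | h0
    · subst h0
      simp only [Nat.cast_zero, Real.log_zero]
      exact Real.log_nonneg (by exact_mod_cast hq)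
    · apply Real.log_le_log (by exact_mod_cast h0)
      exact_mod_cast hnq
  linarith

/-- For every constant `C < 1/3`, there are infinitely many `n` with
`h n > C * log n / log log n`. -/
theorem result : ∀ C : ℝ, C < 1 / 3 → ∃ᶠ n : ℕ in Filter.atTop,
    C * (Real.log n / Real.log (Real.log n)) < (h n : ℝ) := by
  intro C hC
  rw [Filter.frequently_atTop]
  intro n0
  set C' : ℝ := max C (1 / 6) with hC'
  have hC'lt : C' < 1 / 3 := max_lt hC (by norm_num)
  have hC'pos : 0 < C' := lt_of_lt_of_le (by norm_num) (le_max_right _ _)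
  have hCC' : C ≤ C' := le_max_left _ _
  set δ : ℝ := 1 / 2 - 3 / 2 * C' with hδ
  have hδpos : 0 < δ := by rw [hδ]; linarith
  -- choose B
  obtain ⟨B, hB⟩ : ∃ B : ℕ, (max (Real.exp ((C' * Real.log 2 + Real.log 2) / δ + 1))
      (max (16 * (n0 : ℝ) + 8) (16 * Real.exp (Real.exp 1) + 8)) : ℝ) ≤ B := exists_nat_ge _
  have hB1 : Real.exp ((C' * Real.log 2 + Real.log 2) / δ + 1) ≤ B := (le_max_left _ _).trans hB
  have hB2 : 16 * (n0 : ℝ) + 8 ≤ B := ((le_max_left _ _).trans (le_max_right _ _)).trans hB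
  have hB3 : 16 * Real.exp (Real.exp 1) + 8 ≤ B :=
    ((le_max_right _ _).trans (le_max_right _ _)).trans hB
  have hexp : 0 < Real.exp (Real.exp 1) := Real.exp_pos _
  have hBR : (8 : ℝ) ≤ B := by linarith
  have hB8 : 8 ≤ B := by exact_mod_cast hBR
  obtain ⟨n, hn1, hn2, hn3⟩ := main_B B (by omega)
  have hnn0 : n0 ≤ n := by
    have : (n0 : ℝ) ≤ n := by linarith
    exact_mod_cast this
  refine ⟨n, hnn0, ?_⟩
  have hnee : Real.exp (Real.exp 1) ≤ n := by linarith
  have hnpos : (0 : ℝ) < n := by linarith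
  set u := Real.log n with hu
  have hue : Real.exp 1 ≤ u := by
    rw [hu, Real.le_log_iff_exp_le hnpos]; exact hnee
  have hupos : 0 < u := lt_of_lt_of_le (Real.exp_pos 1) hue
  have hlu : 1 ≤ Real.log u := by
    rw [Real.le_log_iff_exp_le hupos]; exact hue
  set k : ℝ := ((S B).card : ℝ) with hk
  have hkB : (B : ℝ) / 4 ≤ k := card_S B (by omega)
  set U := k * (3 / 2 * Real.log B + Real.log 2) with hU
  have huU : u ≤ U := hn2
  have hmono := Real.log_div_self_antitoneOn (show u ∈ {x | Real.exp 1 ≤ x} from hue)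
    (show U ∈ {x | Real.exp 1 ≤ x} from hue.trans huU) huU
  simp only at hmono
  have hUpos : 0 < U := lt_of_lt_of_le hupos huU
  have hlog2 : 0 < Real.log 2 := Real.log_pos (by norm_num)
  have hlogB : (C' * Real.log 2 + Real.log 2) / δ + 1 ≤ Real.log B := by
    rw [Real.le_log_iff_exp_le (by linarith)]; exact hB1
  have hlogB1 : 1 ≤ Real.log B := by
    have : 0 ≤ (C' * Real.log 2 + Real.log 2) / δ := by positivity
    linarith
  have hkpos : 0 < k := by linarith
  have hUk : k ≤ U := by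
    rw [hU]; nlinarith
  have hlogU : Real.log B - 2 * Real.log 2 ≤ Real.log U := by
    have h4 : Real.log ((B : ℝ) / 4) = Real.log B - 2 * Real.log 2 := by
      rw [Real.log_div (by linarith) (by norm_num)]
      rw [show (4 : ℝ) = 2 ^ 2 by norm_num, Real.log_pow]
      push_cast; ring
    rw [← h4]
    exact Real.log_le_log (by linarith) (by linarith)
  have hUle : 1 ≤ Real.log U := by
    rw [Real.le_log_iff_exp_le hUpos]; exact hue.trans huU
  -- main inequality
  have hmain : C' * (3 / 2 * Real.log B + Real.log 2) < (Real.log B - 2 * Real.log 2) / 2 := by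
    have : C' * Real.log 2 + Real.log 2 < δ * Real.log B := by
      have h5 : (C' * Real.log 2 + Real.log 2) / δ < Real.log B := by linarith
      rw [div_lt_iff₀ hδpos] at h5
      linarith
    rw [hδ] at this
    nlinarith
  have h6 : C' * (u / Real.log u) ≤ C' * (U / Real.log U) := by
    apply mul_le_mul_of_nonneg_left _ hC'pos.le
    rw [div_le_div_iff₀ (by linarith) (by linarith)]
    rw [div_le_div_iff₀ hUpos hupos] at hmono
    linarith
  have h7 : C' * (U / Real.log U) < k / 2 := by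
    rw [← mul_div_assoc, div_lt_iff₀ (by linarith)]
    calc C' * U = k * (C' * (3 / 2 * Real.log B + Real.log 2)) := by rw [hU]; ring
      _ < k * ((Real.log B - 2 * Real.log 2) / 2) := by
          apply mul_lt_mul_of_pos_left hmain hkpos
      _ ≤ k * (Real.log U / 2) := by
          apply mul_le_mul_of_nonneg_left _ hkpos.le
          linarith
      _ = k / 2 * Real.log U := by ring
  have h8 : C * (u / Real.log u) ≤ C' * (u / Real.log u) := by
    apply mul_le_mul_of_nonneg_right hCC'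
    positivity
  linarith

end Pool.Agent.Results.MP_0ad3d3_nt.LowerHalf
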